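import Mathlib
import Pool.Agent.U580.RG.Fin

set_option autoImplicit false

/-! # Vojta's inequality for random pairs: upper bound -/

namespace Pool.Agent.U580.VP

open MvPolynomial Finset Pool.Agent.R870.RC Pool.Agent.U580.RG

variable {n : ℕ}

/-- the height -/
def ht (x : Fin (n + 1) → ℤ) : ℕ := Finset.univ.sup fun j => (x j).natAbs

/-- the pairs which violate the inequality at a point of height between `T` and `B` -/
def Vio (n : ℕ) {s : ℕ} (d : Fin s → ℕ) (e : ℕ) (ε : ℝ) (H T B : ℕ) :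
    Set ((Fin s → MvPolynomial (Fin (n + 1)) ℤ) × MvPolynomial (Fin (n + 1)) ℤ) :=
  {P | P.1 ∈ Systems n d H ∧ P.2 ∈ Forms n e H ∧ ∃ x : Fin (n + 1) → ℤ, Prm x ∧
    T ≤ ht x ∧ ht x ≤ B ∧ (∀ i, eval x (P.1 i) = 0) ∧ eval x P.2 ≠ 0 ∧
    ((|eval x P.2| : ℤ) : ℝ) ≤ H * (ht x : ℝ) ^ (((∑ i, d i + e : ℕ) : ℝ) - (n + 1) - ε)}

/-- the forms with a small nonzero value -/
noncomputable def GG (n e H : ℕ) (x : Fin (n + 1) → ℤ) (Y : ℝ) :
    Finset (MvPolynomial (Fin (n + 1)) ℤ) := by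
  classical
  exact (FF n e H).filter fun G => eval x G ≠ 0 ∧ ((|eval x G| : ℤ) : ℝ) ≤ Y

theorem card_GG (e H : ℕ) (hH : 1 ≤ H) (x : Fin (n + 1) → ℤ) (i0 : Fin (n + 1)) (b : ℕ)
    (hx : Prim x i0 b) (Y : ℝ) (hY : 0 ≤ Y) :
    ((GG n e H x Y).card : ℝ) ≤ 2 * Y * ((cst n e : ℝ) * ((FF n e H).card : ℝ) /
      (H * ((min b H : ℕ) : ℝ) ^ e)) := by
  classical
  obtain ⟨K, hK⟩ : ∃ K : ℝ, K = (cst n e : ℝ) * ((FF n e H).card : ℝ) /
      (H * ((min b H : ℕ) : ℝ) ^ e) := ⟨_, rfl⟩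
  have hK0 : 0 ≤ K := by rw [hK]; positivity
  have hcount : ∀ t : ℤ, (((FF n e H).filter fun G => eval x G = t).card : ℝ) ≤ K := by
    intro t
    rw [hK]
    exact count_real e H hH x i0 b hx t
  rw [← hK]
  obtain ⟨w, hw⟩ : ∃ w : ℕ, w = ⌊Y⌋₊ := ⟨_, rfl⟩
  have hwY : (w : ℝ) ≤ Y := by rw [hw]; exact Nat.floor_le hY
  have hsub : GG n e H x Y ⊆ ((Finset.Icc (-(w : ℤ)) w).erase 0).biUnion fun t =>
      (FF n e H).filter fun G => eval x G = t := by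
    intro G hG
    unfold GG at hG
    obtain ⟨h1, h2, h3⟩ := Finset.mem_filter.1 hG
    rw [Finset.mem_biUnion]
    refine ⟨eval x G, Finset.mem_erase.2 ⟨h2, Finset.mem_Icc.2 (abs_le.1 ?_)⟩,
      Finset.mem_filter.2 ⟨h1, rfl⟩⟩
    have h4 : ((eval x G).natAbs : ℝ) ≤ Y := by
      rw [Nat.cast_natAbs]
      exact h3
    have h5 : (eval x G).natAbs ≤ w := by rw [hw]; exact Nat.le_floor h4
    rw [← Int.natCast_natAbs]
    exact_mod_cast h5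
  have hc : ((Finset.Icc (-(w : ℤ)) w).erase 0).card = 2 * w := by
    rw [Finset.card_erase_of_mem (Finset.mem_Icc.2 ⟨by omega, by omega⟩), Int.card_Icc]
    omega
  have h1 : ((GG n e H x Y).card : ℝ) ≤ ∑ t ∈ (Finset.Icc (-(w : ℤ)) w).erase 0,
      (((FF n e H).filter fun G => eval x G = t).card : ℝ) := by
    exact_mod_cast (Finset.card_le_card hsub).trans Finset.card_biUnion_le
  refine h1.trans ((Finset.sum_le_card_nsmul _ _ K fun t _ => hcount t).trans ?_)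
  rw [nsmul_eq_mul, hc]
  push_cast
  exact mul_le_mul_of_nonneg_right (by linarith) hK0

/-- the sum of `b ^ (-1 - ε)` -/
theorem sum_rpow (ε : ℝ) (hε : 0 < ε) (T : ℕ) (hT : 1 ≤ T) (B : ℕ) :
    ∑ b ∈ Finset.Icc T B, (b : ℝ) ^ (-1 - ε) ≤ (1 + 1 / ε) * (T : ℝ) ^ (-ε) := by
  have step : ∀ b : ℕ, 1 ≤ b → ((b + 1 : ℕ) : ℝ) ^ (-1 - ε) ≤
      1 / ε * ((b : ℝ) ^ (-ε) - ((b + 1 : ℕ) : ℝ) ^ (-ε)) := by
    intro b hb
    have hb0 : (0 : ℝ) < b := by exact_mod_cast hb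
    have hb1 : (0 : ℝ) < ((b + 1 : ℕ) : ℝ) := by positivity
    obtain ⟨c, hc⟩ : ∃ c : ℝ, c = ((b + 1 : ℕ) : ℝ) := ⟨_, rfl⟩
    have hcb : (b : ℝ) = c - 1 := by rw [hc]; push_cast; ring
    rw [← hc] at hb1 ⊢
    have h1 : (b : ℝ) ^ (-ε) = c ^ (-ε) * ((b : ℝ) / c) ^ (-ε) := by
      rw [← Real.mul_rpow hb1.le (by positivity)]
      congr 1
      field_simp
    have h2 : 1 + ε / c ≤ ((b : ℝ) / c) ^ (-ε) := by
      rw [Real.rpow_def_of_pos (by positivity)]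
      have h3 : Real.log ((b : ℝ) / c) ≤ (b : ℝ) / c - 1 := Real.log_le_sub_one_of_pos (by positivity)
      have h4 : (b : ℝ) / c - 1 = -(1 / c) := by
        rw [hcb]
        field_simp
        ring
      rw [h4] at h3
      have h5 : ε / c ≤ Real.log ((b : ℝ) / c) * -ε := by
        have : ε * Real.log ((b : ℝ) / c) ≤ ε * -(1 / c) := mul_le_mul_of_nonneg_left h3 hε.le
        have e1 : ε / c = -(ε * -(1 / c)) := by ring
        rw [e1]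
        linarith
      have h6 := Real.add_one_le_exp (Real.log ((b : ℝ) / c) * -ε)
      linarith
    have h3 : c ^ (-1 - ε) = c ^ (-ε) * (1 / c) := by
      rw [show (-1 - ε : ℝ) = -ε + -1 by ring, Real.rpow_add hb1, Real.rpow_neg_one, one_div]
    rw [h1, h3]
    have h4 : (0 : ℝ) < c ^ (-ε) := Real.rpow_pos_of_pos hb1 _
    have h5 : c ^ (-ε) * (1 + ε / c) ≤ c ^ (-ε) * ((b : ℝ) / c) ^ (-ε) :=
      mul_le_mul_of_nonneg_left h2 h4.le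
    have h6 : 1 / ε * (c ^ (-ε) * (1 + ε / c) - c ^ (-ε)) = c ^ (-ε) * (1 / c) := by
      field_simp
      ring
    rw [← h6]
    exact mul_le_mul_of_nonneg_left (by linarith) (by positivity)
  have hTr : (0 : ℝ) < T := by exact_mod_cast hT
  have key : ∀ m : ℕ, ∑ b ∈ Finset.Icc T (T + m), (b : ℝ) ^ (-1 - ε) ≤
      (T : ℝ) ^ (-1 - ε) + 1 / ε * ((T : ℝ) ^ (-ε) - ((T + m : ℕ) : ℝ) ^ (-ε)) := by
    intro m
    induction m with
    | zero =>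
      simp only [add_zero, Finset.Icc_self, Finset.sum_singleton, sub_self, mul_zero]
      exact le_rfl
    | succ m ih =>
      rw [← Nat.add_assoc, Finset.sum_Icc_succ_top (by omega)]
      have := step (T + m) (by omega)
      have e1 : 1 / ε * ((T : ℝ) ^ (-ε) - ((T + m + 1 : ℕ) : ℝ) ^ (-ε)) =
          1 / ε * ((T : ℝ) ^ (-ε) - ((T + m : ℕ) : ℝ) ^ (-ε)) +
          1 / ε * (((T + m : ℕ) : ℝ) ^ (-ε) - ((T + m + 1 : ℕ) : ℝ) ^ (-ε)) := by ring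
      rw [e1]
      linarith
  have hT1 : (T : ℝ) ^ (-1 - ε) ≤ (T : ℝ) ^ (-ε) :=
    Real.rpow_le_rpow_of_exponent_le (by exact_mod_cast hT) (by linarith)
  rcases lt_or_ge B T with h | h
  · rw [Finset.Icc_eq_empty (by omega), Finset.sum_empty]
    positivity
  · obtain ⟨m, rfl⟩ := Nat.exists_eq_add_of_le h
    have h1 := key m
    have h2 : (0 : ℝ) ≤ ((T + m : ℕ) : ℝ) ^ (-ε) := by positivity
    have h3 : 1 / ε * ((T : ℝ) ^ (-ε) - ((T + m : ℕ) : ℝ) ^ (-ε)) ≤ 1 / ε * (T : ℝ) ^ (-ε) :=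
      mul_le_mul_of_nonneg_left (by linarith) (by positivity)
    have e1 : (1 + 1 / ε) * (T : ℝ) ^ (-ε) = (T : ℝ) ^ (-ε) + 1 / ε * (T : ℝ) ^ (-ε) := by ring
    rw [e1]
    linarith

/-- the factor for large heights -/
noncomputable def mm (H B : ℕ) : ℝ := max 1 ((B : ℝ) / H)

theorem per_b (n D : ℕ) (ε : ℝ) (H B b : ℕ) (hH : 1 ≤ H) (hb : 1 ≤ b) (hbB : b ≤ B) :
    (2 * (3 * (b : ℝ)) ^ n) * ((b : ℝ) ^ ((D : ℝ) - (n + 1) - ε) / ((min b H : ℕ) : ℝ) ^ D) ≤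
      2 * 3 ^ n * mm H B ^ D * (b : ℝ) ^ (-1 - ε) := by
  have hHr : (0 : ℝ) < H := by exact_mod_cast hH
  have hbr : (0 : ℝ) < b := by exact_mod_cast hb
  have hbBr : (b : ℝ) ≤ B := by exact_mod_cast hbB
  have hμ : (0 : ℝ) < ((min b H : ℕ) : ℝ) := by exact_mod_cast lt_min hb hH
  have hm1 : (1 : ℝ) ≤ mm H B := le_max_left _ _
  have h1 : (b : ℝ) ≤ mm H B * ((min b H : ℕ) : ℝ) := by
    rcases le_total b H with h | h
    · rw [min_eq_left h]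
      nlinarith
    · rw [min_eq_right h]
      have h2 : (B : ℝ) / H ≤ mm H B := le_max_right _ _
      calc (b : ℝ) ≤ B := hbBr
        _ = (B : ℝ) / H * H := by field_simp
        _ ≤ mm H B * H := mul_le_mul_of_nonneg_right h2 hHr.le
  have h2 : (b : ℝ) ^ D ≤ mm H B ^ D * ((min b H : ℕ) : ℝ) ^ D := by
    rw [← mul_pow]
    exact pow_le_pow_left₀ hbr.le h1 D
  have h3 : (b : ℝ) ^ ((D : ℝ) - (n + 1) - ε) = (b : ℝ) ^ D * (b : ℝ) ^ (-((n : ℝ) + 1) - ε) := by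
    rw [← Real.rpow_natCast, ← Real.rpow_add hbr]
    congr 1
    ring
  have h4 : (b : ℝ) ^ (-1 - ε) = (b : ℝ) ^ n * (b : ℝ) ^ (-((n : ℝ) + 1) - ε) := by
    rw [← Real.rpow_natCast, ← Real.rpow_add hbr]
    congr 1
    ring
  have h5 : (0 : ℝ) < (b : ℝ) ^ (-((n : ℝ) + 1) - ε) := Real.rpow_pos_of_pos hbr _
  rw [h3, h4, mul_pow]
  have h6 : (b : ℝ) ^ D * (b : ℝ) ^ (-((n : ℝ) + 1) - ε) / ((min b H : ℕ) : ℝ) ^ D ≤
      mm H B ^ D * (b : ℝ) ^ (-((n : ℝ) + 1) - ε) := by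
    rw [div_le_iff₀ (by positivity)]
    calc (b : ℝ) ^ D * (b : ℝ) ^ (-((n : ℝ) + 1) - ε) ≤
        (mm H B ^ D * ((min b H : ℕ) : ℝ) ^ D) * (b : ℝ) ^ (-((n : ℝ) + 1) - ε) :=
          mul_le_mul_of_nonneg_right h2 h5.le
      _ = _ := by ring
  calc 2 * (3 ^ n * (b : ℝ) ^ n) * ((b : ℝ) ^ D * (b : ℝ) ^ (-((n : ℝ) + 1) - ε) /
        ((min b H : ℕ) : ℝ) ^ D) ≤
      2 * (3 ^ n * (b : ℝ) ^ n) * (mm H B ^ D * (b : ℝ) ^ (-((n : ℝ) + 1) - ε)) :=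
        mul_le_mul_of_nonneg_left h6 (by positivity)
    _ = _ := by ring

/-- the bad pairs -/
noncomputable def badV (n : ℕ) {s : ℕ} (d : Fin s → ℕ) (e : ℕ) (ε : ℝ) (H T B : ℕ) :
    Finset ((Fin s → MvPolynomial (Fin (n + 1)) ℤ) × MvPolynomial (Fin (n + 1)) ℤ) := by
  classical
  exact (Finset.univ : Finset (Fin (n + 1))).biUnion fun i0 => (Finset.Icc T B).biUnion fun b =>
    ((Bx n i0 b).filter (fun x => Prim x i0 b)).biUnion fun x =>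
      AA n d H x ×ˢ GG n e H x (H * (b : ℝ) ^ (((∑ i, d i + e : ℕ) : ℝ) - (n + 1) - ε))

theorem eval_smul_pt {d : ℕ} {F : MvPolynomial (Fin (n + 1)) ℤ} (hF : F.IsHomogeneous d) (g : ℤ)
    (x y : Fin (n + 1) → ℤ) (hxy : ∀ i, x i = g * y i) : eval x F = g ^ d * eval y F := by
  have h2 : x = fun j => g * y j := funext hxy
  rw [h2, MvPolynomial.eval_eq', MvPolynomial.eval_eq', Finset.mul_sum]
  refine Finset.sum_congr rfl fun m hm => ?_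
  have h3 : ∑ j, m j = d := by
    have h4 := hF (MvPolynomial.mem_support_iff.1 hm)
    rw [← h4, Finsupp.weight_apply, Finsupp.sum_fintype _ _ (by simp)]
    simp
  simp only [mul_pow, Finset.prod_mul_distrib, Finset.prod_pow_eq_pow_sum, h3]
  ring

theorem vio_sub {s : ℕ} (d : Fin s → ℕ) (e : ℕ) (ε : ℝ) (H T B : ℕ) :
    Vio n d e ε H T B ⊆ ((badV n d e ε H T B : Finset _) : Set _) := by
  classical
  rintro ⟨F, G⟩ ⟨hF, hG, x, hx, hT, hB, h0, hG0, hGY⟩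
  simp only at hF hG h0 hG0 hGY
  have hx0 : x ≠ 0 := by
    rintro rfl
    obtain ⟨j, hj⟩ := hx 2 Nat.prime_two
    exact hj (dvd_zero _)
  obtain ⟨M, hM⟩ : ∃ M, M = ht x := ⟨_, rfl⟩
  have hxM : ∀ j, |x j| ≤ (M : ℤ) := by
    intro j
    have : (x j).natAbs ≤ M := by
      rw [hM]
      exact Finset.le_sup (f := fun j => (x j).natAbs) (Finset.mem_univ j)
    rw [← Int.natCast_natAbs]
    exact_mod_cast this
  obtain ⟨g, y, i0, b, hg, hxy, hy, hb⟩ := exists_prim x hx0 M hxM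
  have hg1 : g.natAbs = 1 := by
    by_contra hne
    obtain ⟨p, hp, hpg⟩ := Nat.exists_prime_and_dvd hne
    obtain ⟨j, hj⟩ := hx p hp
    apply hj
    rw [hxy j]
    exact Dvd.dvd.mul_right (Int.natCast_dvd.2 hpg) _
  have hxa : ∀ j, (x j).natAbs = (y j).natAbs := by
    intro j
    rw [hxy j, Int.natAbs_mul, hg1, one_mul]
  have hbM : b = M := by
    refine le_antisymm hb ?_
    rw [hM]
    refine Finset.sup_le fun j _ => ?_
    rw [hxa j]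
    have := hy.2.2.2 j
    rw [← Int.natCast_natAbs] at this
    exact_mod_cast this
  rw [← hM] at hT hB hGY
  have hGx := eval_smul_pt hG.1 g x y hxy
  have hga : |g| = 1 := by rw [← Int.natCast_natAbs, hg1]; rfl
  unfold badV AA GG
  simp only [Finset.coe_biUnion, Set.mem_iUnion, Finset.mem_coe, Finset.mem_product,
    Finset.mem_univ, Finset.mem_Icc, Finset.mem_filter, Fintype.mem_piFinset]
  refine ⟨i0, trivial, b, ⟨hbM ▸ hT, hbM ▸ hB⟩, y, ⟨mem_Bx hy, hy⟩, fun i =>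
    ⟨(mem_FF _).2 (hF i), ?_⟩, (mem_FF _).2 hG, ?_, ?_⟩
  · have h1 := eval_smul_pt (hF i).1 g x y hxy
    rw [h0] at h1
    exact (mul_eq_zero.1 h1.symm).resolve_left (pow_ne_zero _ hg)
  · intro h
    rw [h, mul_zero] at hGx
    exact hG0 hGx
  · rw [hGx, abs_mul, abs_pow, hga, one_pow, one_mul] at hGY
    rw [hbM]
    exact hGY

theorem fin_vio {s : ℕ} (d : Fin s → ℕ) (e : ℕ) (ε : ℝ) (H T B : ℕ) : (Vio n d e ε H T B).Finite :=
  (Finset.finite_toSet _).subset (vio_sub d e ε H T B)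

theorem card_badV {s : ℕ} (d : Fin s → ℕ) (e : ℕ) (ε : ℝ) (hε : 0 < ε) (H T B : ℕ) (hH : 1 ≤ H)
    (hT : 1 ≤ T) :
    ((badV n d e ε H T B).card : ℝ) ≤ ((n + 1) * (4 * 3 ^ n * (1 + 1 / ε)) *
      ((∏ i, (cst n (d i) : ℝ)) * (cst n e : ℝ))) *
      (mm H B ^ (∑ i, d i + e) * (1 / (H : ℝ) ^ s) * (T : ℝ) ^ (-ε)) *
      ((∏ i, ((FF n (d i) H).card : ℝ)) * ((FF n e H).card : ℝ)) := by
  classical
  have hHr : (1 : ℝ) ≤ H := by exact_mod_cast hH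
  obtain ⟨D, hD⟩ : ∃ D : ℕ, D = ∑ i, d i + e := ⟨_, rfl⟩
  obtain ⟨c1, hc1⟩ : ∃ c1 : ℝ, c1 = ∏ i, (cst n (d i) : ℝ) := ⟨_, rfl⟩
  obtain ⟨c2, hc2⟩ : ∃ c2 : ℝ, c2 = (cst n e : ℝ) := ⟨_, rfl⟩
  obtain ⟨S1, hS1⟩ : ∃ S1 : ℝ, S1 = ∏ i, ((FF n (d i) H).card : ℝ) := ⟨_, rfl⟩
  obtain ⟨S2, hS2⟩ : ∃ S2 : ℝ, S2 = ((FF n e H).card : ℝ) := ⟨_, rfl⟩
  have hc10 : 0 ≤ c1 := by rw [hc1]; exact Finset.prod_nonneg fun i _ => Nat.cast_nonneg _
  have hc20 : 0 ≤ c2 := by rw [hc2]; exact Nat.cast_nonneg _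
  have hS10 : 0 ≤ S1 := by rw [hS1]; exact Finset.prod_nonneg fun i _ => Nat.cast_nonneg _
  have hS20 : 0 ≤ S2 := by rw [hS2]; exact Nat.cast_nonneg _
  rw [← hc1, ← hc2, ← hS1, ← hS2]
  obtain ⟨K, hK⟩ : ∃ K : ℝ, K = c1 * c2 * (S1 * S2) / (H : ℝ) ^ s := ⟨_, rfl⟩
  have hK0 : 0 ≤ K := by rw [hK]; positivity
  have hpt : ∀ b : ℕ, 1 ≤ b → ∀ i0 : Fin (n + 1), ∀ x : Fin (n + 1) → ℤ, Prim x i0 b →
      (((AA n d H x ×ˢ GG n e H x (H * (b : ℝ) ^ ((D : ℝ) - (n + 1) - ε))).card : ℕ) : ℝ) ≤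
        2 * K * ((b : ℝ) ^ ((D : ℝ) - (n + 1) - ε) / ((min b H : ℕ) : ℝ) ^ D) := by
    intro b hb i0 x hx
    have hbr : (0 : ℝ) < b := by exact_mod_cast hb
    have hμ : (0 : ℝ) < ((min b H : ℕ) : ℝ) := by exact_mod_cast lt_min hb hH
    have h1 := card_AA d H hH x i0 b hx
    have h2 := card_GG e H hH x i0 b hx (H * (b : ℝ) ^ ((D : ℝ) - (n + 1) - ε)) (by positivity)
    rw [← hc1, ← hS1] at h1
    rw [← hc2, ← hS2] at h2
    rw [Finset.card_product, Nat.cast_mul]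
    have h3 : 0 ≤ c1 * S1 / (H : ℝ) ^ s / ((min b H : ℕ) : ℝ) ^ (∑ i, d i) := by positivity
    refine (mul_le_mul h1 h2 (Nat.cast_nonneg _) h3).trans (le_of_eq ?_)
    rw [hK, hD, pow_add (((min b H : ℕ) : ℝ))]
    field_simp
  have h1 : ((badV n d e ε H T B).card : ℝ) ≤ ∑ _i0 : Fin (n + 1), ∑ b ∈ Finset.Icc T B,
      2 * K * (2 * 3 ^ n * mm H B ^ D * (b : ℝ) ^ (-1 - ε)) := by
    unfold badV
    rw [← hD]
    refine (Nat.cast_le.2 Finset.card_biUnion_le).trans ?_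
    rw [Nat.cast_sum]
    refine Finset.sum_le_sum fun i0 _ => ?_
    refine (Nat.cast_le.2 Finset.card_biUnion_le).trans ?_
    rw [Nat.cast_sum]
    refine Finset.sum_le_sum fun b hb => ?_
    obtain ⟨hb1, hb2⟩ := Finset.mem_Icc.1 hb
    refine (Nat.cast_le.2 Finset.card_biUnion_le).trans ?_
    rw [Nat.cast_sum]
    have hb0 : 1 ≤ b := hT.trans hb1
    have hμ : (0 : ℝ) < ((min b H : ℕ) : ℝ) := by exact_mod_cast lt_min hb0 hH
    have hbr : (0 : ℝ) < b := by exact_mod_cast hb0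
    refine (Finset.sum_le_sum fun x hx => hpt b hb0 i0 x (Finset.mem_filter.1 hx).2).trans ?_
    rw [Finset.sum_const, nsmul_eq_mul]
    have e5 : ((((Bx n i0 b).filter (fun x => Prim x i0 b)).card : ℕ) : ℝ) ≤ 2 * (3 * b) ^ n := by
      have e6 := (Finset.card_filter_le (Bx n i0 b) (fun x => Prim x i0 b)).trans
        (card_Bx i0 b hb0)
      exact_mod_cast e6
    calc _ ≤ (2 * (3 * b) ^ n : ℝ) * (2 * K * ((b : ℝ) ^ ((D : ℝ) - (n + 1) - ε) /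
          ((min b H : ℕ) : ℝ) ^ D)) := mul_le_mul_of_nonneg_right e5 (by positivity)
      _ = 2 * K * ((2 * (3 * (b : ℝ)) ^ n) * ((b : ℝ) ^ ((D : ℝ) - (n + 1) - ε) /
          ((min b H : ℕ) : ℝ) ^ D)) := by ring
      _ ≤ _ := mul_le_mul_of_nonneg_left (per_b n D ε H B b hH hb0 hb2) (by positivity)
  refine h1.trans ?_
  rw [Finset.sum_const, Finset.card_univ, Fintype.card_fin, nsmul_eq_mul, ← Finset.mul_sum,
    ← Finset.mul_sum]
  have h2 := sum_rpow ε hε T hT B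
  have hm0 : (0 : ℝ) ≤ mm H B := zero_le_one.trans (le_max_left _ _)
  have h3 : (0 : ℝ) ≤ ((n + 1 : ℕ) : ℝ) * (2 * K * (2 * 3 ^ n * mm H B ^ D)) := by positivity
  calc ((n + 1 : ℕ) : ℝ) * (2 * K * (2 * 3 ^ n * mm H B ^ D * ∑ b ∈ Finset.Icc T B, (b : ℝ) ^ (-1 - ε)))
      = ((n + 1 : ℕ) : ℝ) * (2 * K * (2 * 3 ^ n * mm H B ^ D)) *
          ∑ b ∈ Finset.Icc T B, (b : ℝ) ^ (-1 - ε) := by ring
    _ ≤ ((n + 1 : ℕ) : ℝ) * (2 * K * (2 * 3 ^ n * mm H B ^ D)) *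
          ((1 + 1 / ε) * (T : ℝ) ^ (-ε)) := mul_le_mul_of_nonneg_left h2 h3
    _ = _ := by
        rw [hK, ← hD]
        push_cast
        ring

theorem up_vio {s : ℕ} (d : Fin s → ℕ) (e : ℕ) (ε : ℝ) (hε : 0 < ε) (H T B : ℕ) (hH : 1 ≤ H)
    (hT : 1 ≤ T) :
    ((Vio n d e ε H T B).ncard : ℝ) ≤ ((n + 1) * (4 * 3 ^ n * (1 + 1 / ε)) *
      ((∏ i, (cst n (d i) : ℝ)) * (cst n e : ℝ))) *
      (mm H B ^ (∑ i, d i + e) * (1 / (H : ℝ) ^ s) * (T : ℝ) ^ (-ε)) *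
      ((∏ i, ((FF n (d i) H).card : ℝ)) * ((FF n e H).card : ℝ)) := by
  have h2 := Set.ncard_le_ncard (vio_sub (n := n) d e ε H T B) (Finset.finite_toSet _)
  rw [Set.ncard_coe_finset] at h2
  exact (Nat.cast_le.2 h2).trans (card_badV d e ε hε H T B hH hT)

end Pool.Agent.U580.VP
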