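import Mathlib
import Pool.Agent.U580.VP.Up

set_option autoImplicit false

/-! # Vojta's inequality for random pairs: lower bound -/

namespace Pool.Agent.U580.VP

open MvPolynomial Finset Pool.Agent.R870.RC Pool.Agent.U580.RG

variable {n : ℕ}

/-- many forms have a small value at a point -/
theorem low_window (e H : ℕ) (hH : 1 ≤ H) (x : Fin (n + 1) → ℤ) (b : ℕ) (hb : 1 ≤ b)
    (hx : ∀ i, |x i| ≤ b) (w : ℕ) (hw : 1 ≤ w) (hwb : w ≤ H * b ^ e) [DecidableEq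
      (MvPolynomial (Fin (n + 1)) ℤ)] :
    ((FF n e H).card : ℝ) * w / (3 ^ (Mo n e).card * (3 * (Mo n e).card) * (H * (b : ℝ) ^ e)) ≤
      (((FF n e H).filter (fun G => |eval x G| ≤ (w : ℤ))).card : ℝ) := by
  classical
  obtain ⟨M, hM⟩ : ∃ M, M = (Mo n e).card := ⟨_, rfl⟩
  have hM1 : 1 ≤ M := hM ▸ Mo_pos n e
  have hcF : ∀ K : ℕ, (FF n e K).card = (2 * K + 1) ^ M := fun K => by rw [hM]; exact card_FF n e K
  rw [← hM]
  obtain ⟨h, hh⟩ : ∃ h, h = H / 2 := ⟨_, rfl⟩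
  obtain ⟨R, hR⟩ : ∃ R, R = M * h * b ^ e := ⟨_, rfl⟩
  obtain ⟨Y, hY⟩ : ∃ Y : Finset ℤ,
      Y = Finset.Icc (-((R / w : ℕ) : ℤ) - 1) ((R / w : ℕ) : ℤ) := ⟨_, rfl⟩
  have hw0 : (0 : ℤ) < w := by exact_mod_cast hw
  have hmap : ∀ F ∈ FF n e h, (eval x F) / (w : ℤ) ∈ Y := by
    intro F hF
    have h1 := abs_eval_le ((mem_FF F).1 hF) x b hx
    rw [← hM, ← hR, abs_le] at h1
    rw [hY, Finset.mem_Icc]
    have e1 : ((R / w : ℕ) : ℤ) = (R : ℤ) / (w : ℤ) := Int.natCast_div R w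
    constructor
    · rw [e1]
      have h2 : (-(R : ℤ)) / (w : ℤ) ≤ (eval x F) / (w : ℤ) := Int.ediv_le_ediv hw0 h1.1
      have h3 : -((R : ℤ) / (w : ℤ)) - 1 ≤ (-(R : ℤ)) / (w : ℤ) := by
        rw [Int.le_ediv_iff_mul_le hw0]
        have h4 := Int.emod_add_mul_ediv (R : ℤ) (w : ℤ)
        have h5 := Int.emod_lt_of_pos (R : ℤ) hw0
        have h6 : (w : ℤ) * ((R : ℤ) / (w : ℤ)) = ((R : ℤ) / (w : ℤ)) * w := mul_comm _ _
        have h7 : (-((R : ℤ) / (w : ℤ)) - 1) * (w : ℤ) = -(((R : ℤ) / (w : ℤ)) * w) - w := by ring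
        rw [h7]
        linarith
      linarith
    · rw [e1]
      exact Int.ediv_le_ediv hw0 h1.2
  have hYne : Y.Nonempty := ⟨0, by
    rw [hY, Finset.mem_Icc]
    generalize R / w = q
    constructor <;> omega⟩
  have hwr : (0 : ℝ) < w := by exact_mod_cast hw
  have hHr : (0 : ℝ) < H := by exact_mod_cast hH
  have hbr : (0 : ℝ) < b := by exact_mod_cast hb
  have hMr : (1 : ℝ) ≤ M := by exact_mod_cast hM1
  have hYc : (Y.card : ℝ) ≤ 3 * M * (H * (b : ℝ) ^ e) / w := by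
    have h1 : Y.card = 2 * (R / w) + 2 := by
      rw [hY, Int.card_Icc]
      omega
    have h2 : 2 * R ≤ M * (H * b ^ e) := by
      have h3 : 2 * h ≤ H := by omega
      calc 2 * R = M * (2 * h * b ^ e) := by rw [hR]; ring
        _ ≤ M * (H * b ^ e) := Nat.mul_le_mul_left _ (Nat.mul_le_mul_right _ h3)
    have h2r : 2 * (R : ℝ) ≤ M * (H * (b : ℝ) ^ e) := by exact_mod_cast h2
    have h4 : ((R / w : ℕ) : ℝ) ≤ (R : ℝ) / w := Nat.cast_div_le
    have h5 : (w : ℝ) ≤ H * (b : ℝ) ^ e := by exact_mod_cast hwb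
    have h6 : (w : ℝ) ≤ M * (H * (b : ℝ) ^ e) := by
      have : (0 : ℝ) ≤ H * (b : ℝ) ^ e := by positivity
      nlinarith
    rw [h1]
    push_cast
    rw [le_div_iff₀ hwr]
    have h7 : (R : ℝ) / w * w = R := by field_simp
    have h8 : ((R / w : ℕ) : ℝ) * w ≤ R := by
      calc ((R / w : ℕ) : ℝ) * w ≤ (R : ℝ) / w * w := mul_le_mul_of_nonneg_right h4 hwr.le
        _ = R := h7
    linarith
  have hYpos : (0 : ℝ) < Y.card := by exact_mod_cast Finset.card_pos.2 hYne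
  obtain ⟨t, -, ht⟩ := Finset.exists_le_card_fiber_of_nsmul_le_card_of_maps_to (M := ℝ) hmap hYne
    (b := ((FF n e h).card : ℝ) / Y.card) (by
      rw [nsmul_eq_mul, mul_div_cancel₀ _ hYpos.ne'])
  -- differences
  have h1 : ((FF n e h).filter (fun F => (eval x F) / (w : ℤ) = t)).card ≤
      ((FF n e H).filter (fun G => |eval x G| ≤ (w : ℤ))).card := by
    rcases ((FF n e h).filter (fun F => (eval x F) / (w : ℤ) = t)).eq_empty_or_nonempty with
      he | ⟨F₀, hF₀⟩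
    · rw [he, Finset.card_empty]
      exact Nat.zero_le _
    · obtain ⟨hF₀1, hF₀2⟩ := Finset.mem_filter.1 hF₀
      refine Finset.card_le_card_of_injOn (fun F => F + -F₀) ?_ ?_
      · intro F hF
        rw [Finset.mem_coe, Finset.mem_filter, mem_FF] at hF
        rw [Finset.mem_coe, Finset.mem_filter, mem_FF]
        refine ⟨forms_mono (by omega) (forms_add hF.1 (forms_neg ((mem_FF _).1 hF₀1))), ?_⟩
        rw [map_add, map_neg]
        have a1 := Int.emod_add_mul_ediv (eval x F) (w : ℤ)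
        have a2 := Int.emod_add_mul_ediv (eval x F₀) (w : ℤ)
        have a3 := Int.emod_nonneg (eval x F) hw0.ne'
        have a4 := Int.emod_lt_of_pos (eval x F) hw0
        have a5 := Int.emod_nonneg (eval x F₀) hw0.ne'
        have a6 := Int.emod_lt_of_pos (eval x F₀) hw0
        rw [hF.2] at a1
        rw [hF₀2] at a2
        rw [abs_le]
        constructor <;> linarith
      · intro F _ F' _ h
        exact add_right_cancel h
  have h2 : ((FF n e H).card : ℝ) ≤ 3 ^ M * (FF n e h).card := by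
    have h4 : 2 * H + 1 ≤ 3 * (2 * h + 1) := by omega
    have h3 : (FF n e H).card ≤ 3 ^ M * (FF n e h).card := by
      rw [hcF, hcF, ← mul_pow]
      exact Nat.pow_le_pow_left h4 M
    exact_mod_cast h3
  have h3 : (((FF n e h).filter (fun F => (eval x F) / (w : ℤ) = t)).card : ℝ) ≤
      (((FF n e H).filter (fun G => |eval x G| ≤ (w : ℤ))).card : ℝ) := by exact_mod_cast h1
  refine le_trans ?_ (ht.trans h3)
  obtain ⟨A, hA⟩ : ∃ A : ℝ, A = ((FF n e H).card : ℝ) := ⟨_, rfl⟩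
  obtain ⟨A', hA'⟩ : ∃ A' : ℝ, A' = ((FF n e h).card : ℝ) := ⟨_, rfl⟩
  obtain ⟨y, hy⟩ : ∃ y : ℝ, y = (Y.card : ℝ) := ⟨_, rfl⟩
  have hA'0 : 0 ≤ A' := hA' ▸ Nat.cast_nonneg _
  rw [← hA, ← hA'] at h2
  rw [← hy] at hYc hYpos
  rw [← hA, ← hA', ← hy]
  have hz : (0 : ℝ) < 3 ^ M * (3 * M) * (H * (b : ℝ) ^ e) := by positivity
  rw [div_le_div_iff₀ hz hYpos]
  rw [le_div_iff₀ hwr] at hYc
  calc A * w * y = A * (y * w) := by ring
    _ ≤ (3 ^ M * A') * (3 * M * (H * (b : ℝ) ^ e)) :=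
        mul_le_mul h2 hYc (by positivity) (mul_nonneg (by positivity) hA'0)
    _ = A' * (3 ^ M * (3 * M) * (H * (b : ℝ) ^ e)) := by ring

/-- many forms have a small nonzero value at a point of height between `T` and `2 T` -/
theorem low_GG (e : ℕ) : ∃ c₃ c₅ : ℝ, 1 ≤ c₃ ∧ 1 ≤ c₅ ∧ ∀ (H T : ℕ), 1 ≤ T → 2 * T ≤ H →
    ∀ (x : Fin (n + 1) → ℤ) (i0 : Fin (n + 1)) (b : ℕ), Prim x i0 b → T ≤ b → b ≤ 2 * T →
    ∀ Y : ℝ, c₅ ≤ Y → Y ≤ H * (T : ℝ) ^ e →
      ((FF n e H).card : ℝ) * Y / (c₃ * (H * (T : ℝ) ^ e)) ≤ ((GG n e H x Y).card : ℝ) := by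
  classical
  obtain ⟨M, hM⟩ : ∃ M, M = (Mo n e).card := ⟨_, rfl⟩
  have hM1 : 1 ≤ M := hM ▸ Mo_pos n e
  have hMr : (1 : ℝ) ≤ M := by exact_mod_cast hM1
  obtain ⟨k, hk⟩ : ∃ k : ℝ, k = 3 ^ M * (3 * M) * 2 ^ e := ⟨_, rfl⟩
  have hk1 : 1 ≤ k := by
    rw [hk]
    have h1 : (1 : ℝ) ≤ 3 ^ M := one_le_pow₀ (by norm_num)
    have h2 : (1 : ℝ) ≤ 2 ^ e := one_le_pow₀ (by norm_num)
    have h3 : (1 : ℝ) ≤ 3 * M := by linarith
    exact one_le_mul_of_one_le_of_one_le (one_le_mul_of_one_le_of_one_le h1 h3) h2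
  obtain ⟨q, hq⟩ : ∃ q : ℝ, q = (cst n e : ℝ) := ⟨_, rfl⟩
  have hq1 : 1 ≤ q := by
    rw [hq]
    have : 1 ≤ cst n e := Nat.one_le_iff_ne_zero.2 (pow_ne_zero _ (by omega))
    exact_mod_cast this
  refine ⟨4 * k, 4 * k * q, by linarith, by nlinarith, fun H T hT hTH x i0 b hx hTb hbT Y hY1 hY2 => ?_⟩
  have hH : 1 ≤ H := by omega
  have hHr : (0 : ℝ) < H := by exact_mod_cast hH
  have hTr : (0 : ℝ) < T := by exact_mod_cast hT
  have hY0 : (4 : ℝ) ≤ Y := by nlinarith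
  obtain ⟨w, hw⟩ : ∃ w : ℕ, w = ⌊Y⌋₊ := ⟨_, rfl⟩
  have hwY : (w : ℝ) ≤ Y := by rw [hw]; exact Nat.floor_le (by linarith)
  have hwY2 : Y < w + 1 := by rw [hw]; exact Nat.lt_floor_add_one Y
  have hwr : (1 : ℝ) ≤ w := by linarith
  have hw1 : 1 ≤ w := by exact_mod_cast hwr
  have hwb : w ≤ H * (2 * T) ^ e := by
    have h1 : (w : ℝ) ≤ H * (2 * T : ℝ) ^ e := by
      refine hwY.trans (hY2.trans (mul_le_mul_of_nonneg_left ?_ hHr.le))
      exact pow_le_pow_left₀ hTr.le (by linarith) e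
    exact_mod_cast h1
  have hxb : ∀ i, |x i| ≤ ((2 * T : ℕ) : ℤ) := fun i => (hx.2.2.2 i).trans (by exact_mod_cast hbT)
  have h1 := low_window e H hH x (2 * T) (by omega) hxb w hw1 hwb
  have h2 := count_real e H hH x i0 b hx 0
  rw [← hM] at h1
  rw [← hq, min_eq_left (hbT.trans hTH)] at h2
  obtain ⟨S, hS⟩ : ∃ S : ℝ, S = ((FF n e H).card : ℝ) := ⟨_, rfl⟩
  have hS0 : 0 ≤ S := by rw [hS]; exact Nat.cast_nonneg _
  rw [← hS] at h1 h2 ⊢
  have hsub : (FF n e H).filter (fun G => |eval x G| ≤ (w : ℤ)) ⊆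
      GG n e H x Y ∪ (FF n e H).filter (fun G => eval x G = 0) := by
    intro G hG
    obtain ⟨h3, h4⟩ := Finset.mem_filter.1 hG
    rw [Finset.mem_union]
    by_cases h5 : eval x G = 0
    · right
      exact Finset.mem_filter.2 ⟨h3, h5⟩
    · left
      unfold GG
      refine Finset.mem_filter.2 ⟨h3, h5, ?_⟩
      refine le_trans ?_ hwY
      exact_mod_cast h4
  have h3 : (((FF n e H).filter (fun G => |eval x G| ≤ (w : ℤ))).card : ℝ) ≤
      ((GG n e H x Y).card : ℝ) + (((FF n e H).filter (fun G => eval x G = 0)).card : ℝ) := by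
    exact_mod_cast (Finset.card_le_card hsub).trans (Finset.card_union_le _ _)
  have hP : (0 : ℝ) < H * (T : ℝ) ^ e := by positivity
  have h4 : q * S / (H * (b : ℝ) ^ e) ≤ q * S / (H * (T : ℝ) ^ e) := by
    refine div_le_div_of_nonneg_left (by positivity) hP (mul_le_mul_of_nonneg_left ?_ hHr.le)
    exact pow_le_pow_left₀ hTr.le (by exact_mod_cast hTb) e
  have h5 : S * w / (3 ^ M * (3 * M) * (H * ((2 * T : ℕ) : ℝ) ^ e)) = S * w / (k * (H * (T : ℝ) ^ e)) := by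
    rw [hk]
    push_cast
    rw [mul_pow]
    congr 1
    ring
  rw [h5] at h1
  have h6 : S * Y / (4 * k * (H * (T : ℝ) ^ e)) + q * S / (H * (T : ℝ) ^ e) ≤
      S * w / (k * (H * (T : ℝ) ^ e)) := by
    have e1 : S * Y / (4 * k * (H * (T : ℝ) ^ e)) = (S / (H * (T : ℝ) ^ e)) * (Y / (4 * k)) := by
      field_simp
    have e2 : q * S / (H * (T : ℝ) ^ e) = (S / (H * (T : ℝ) ^ e)) * q := by
      field_simp
    have e3 : S * w / (k * (H * (T : ℝ) ^ e)) = (S / (H * (T : ℝ) ^ e)) * (w / k) := by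
      field_simp
    rw [e1, e2, e3, ← mul_add]
    refine mul_le_mul_of_nonneg_left ?_ (by positivity)
    have e4 : Y / (4 * k) + q = (Y + 4 * k * q) / (4 * k) := by
      field_simp
    rw [e4, div_le_div_iff₀ (by linarith) (by linarith)]
    have e5 : Y + 4 * k * q ≤ 4 * w := by linarith
    calc (Y + 4 * k * q) * k ≤ 4 * w * k := mul_le_mul_of_nonneg_right e5 (by linarith)
      _ = w * (4 * k) := by ring
  linarith

/-- the pairs with the point `x` -/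
noncomputable def BB (n : ℕ) {s : ℕ} (d : Fin s → ℕ) (e H : ℕ) (Y : ℝ) (x : Fin (n + 1) → ℤ) :
    Finset ((Fin s → MvPolynomial (Fin (n + 1)) ℤ) × MvPolynomial (Fin (n + 1)) ℤ) :=
  AA n d H x ×ˢ GG n e H x Y

theorem prim_of_fam {m T : ℕ} {x : Fin (m + 2) → ℤ} (hx : x ∈ Fam m T) :
    ∃ (i0 : Fin (m + 2)), Prim (n := m + 1) x i0 (ht (n := m + 1) x) ∧ T ≤ ht (n := m + 1) x ∧
      ht (n := m + 1) x ≤ 2 * T ∧ Prm (n := m + 1) x := by
  obtain ⟨h1, h2, h3⟩ := mem_Fam hx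
  obtain ⟨i0, -, hi0⟩ := Finset.exists_mem_eq_sup Finset.univ Finset.univ_nonempty
    (fun j => (x j).natAbs)
  have hi0' : ht (n := m + 1) x = (x i0).natAbs := hi0
  have hle : ∀ j, (x j).natAbs ≤ ht (n := m + 1) x := fun j =>
    Finset.le_sup (f := fun j => (x j).natAbs) (Finset.mem_univ j)
  have hT : T ≤ ht (n := m + 1) x := by
    rcases lt_max_iff.1 h3 with h | h
    · exact le_trans (b := (x 0).natAbs) (by omega) (hle 0)
    · exact le_trans (b := (x 1).natAbs) (by omega) (hle 1)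
  refine ⟨i0, ⟨?_, ?_, ?_, ?_⟩, hT, ?_, ?_⟩
  · obtain ⟨u, v, huv⟩ := h2
    refine ⟨fun i => if i = 0 then u else if i = 1 then v else 0, ?_⟩
    have h01 : (1 : Fin (m + 2)) ≠ 0 := by
      intro h
      have := congrArg Fin.val h
      simp at this
    have : ∑ i : Fin (m + 2), (if i = 0 then u else if i = 1 then v else 0) * x i =
        u * x 0 + v * x 1 := by
      rw [Fintype.sum_eq_add (0 : Fin (m + 2)) 1 h01.symm]
      · rw [if_pos rfl, if_neg h01, if_pos rfl]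
      · rintro i ⟨hi0, hi1⟩
        rw [if_neg hi0, if_neg hi1, zero_mul]
    exact this.trans huv
  · rw [hi0', Int.natCast_natAbs]
  · have := (h1 i0).1
    rw [hi0']
    omega
  · intro i
    rw [← Int.natCast_natAbs]
    exact_mod_cast hle i
  · refine Finset.sup_le fun j _ => ?_
    have := h1 j
    omega
  · intro p hp
    by_contra hno
    push Not at hno
    have h4 := h2.isUnit_of_dvd' (hno 0) (hno 1)
    exact (Nat.prime_iff_prime_int.1 hp).not_isUnit h4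

theorem union_sub (m : ℕ) {s : ℕ} (d : Fin s → ℕ) (e : ℕ) (ε : ℝ) (H T : ℕ) (Y : ℝ)
    (hY : ∀ b : ℕ, T ≤ b → b ≤ 2 * T →
      Y ≤ H * (b : ℝ) ^ (((∑ i, d i + e : ℕ) : ℝ) - (((m + 1 : ℕ) : ℝ) + 1) - ε))
    [DecidableEq ((Fin s → MvPolynomial (Fin (m + 1 + 1)) ℤ) × MvPolynomial (Fin (m + 1 + 1)) ℤ)] :
    (((Fam m T).biUnion fun x => BB (m + 1) d e H Y x : Finset _) : Set _) ⊆
      Vio (m + 1) d e ε H T (2 * T) := by
  classical
  intro P hP
  rw [Finset.mem_coe, Finset.mem_biUnion] at hP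
  obtain ⟨x, hx, hP⟩ := hP
  unfold BB AA GG at hP
  obtain ⟨h1, h2⟩ := Finset.mem_product.1 hP
  rw [Fintype.mem_piFinset] at h1
  obtain ⟨h3, h4, h5⟩ := Finset.mem_filter.1 h2
  obtain ⟨i0, -, h6, h7, h8⟩ := prim_of_fam hx
  exact ⟨fun i => (mem_FF _).1 (Finset.mem_filter.1 (h1 i)).1, (mem_FF _).1 h3, x, h8, h6, h7,
    fun i => (Finset.mem_filter.1 (h1 i)).2, h4, h5.trans (hY _ h6 h7)⟩

end Pool.Agent.U580.VP
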