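import Mathlib
import Pool.Agent.U580.VP.Low

set_option autoImplicit false

/-! # Vojta's inequality for random pairs: the lower bound for the probability -/

namespace Pool.Agent.U580.VP

open MvPolynomial Finset Pool.Agent.R870.RC Pool.Agent.U580.RG

/-- the lower bound for the tail -/
theorem low_vio (m : ℕ) {s : ℕ} (hs : 1 ≤ s) (d : Fin s → ℕ) (hd : ∀ i, 1 ≤ d i) (e : ℕ)
    (ε : ℝ) (hε : 0 < ε) (hκ : ((∑ i, d i : ℕ) : ℝ) ≤ ((m + 1 : ℕ) : ℝ) + 1 + ε) :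
    ∃ c C : ℝ, 0 < c ∧ 0 < C ∧ ∀ H : ℕ, 1 ≤ H → ∀ T : ℕ, 1 ≤ T →
      C * (T : ℝ) ^ (2 * (((m + 1 : ℕ) : ℝ) + 1) + ε) ≤ H →
      c * (1 / (H : ℝ) ^ s * (T : ℝ) ^ (-ε)) *
        ((∏ i, ((FF (m + 1) (d i) H).card : ℝ)) * ((FF (m + 1) e H).card : ℝ)) ≤
        ((Vio (m + 1) d e ε H T (2 * T)).ncard : ℝ) := by
  classical
  obtain ⟨c₃, c₅, hc₃, hc₅, hGG⟩ := low_GG (n := m + 1) e
  obtain ⟨c₁, hc₁⟩ : ∃ c₁ : ℝ, c₁ = ∏ i, (3 ^ (Mo (m + 1) (d i)).card *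
    (3 * (Mo (m + 1) (d i)).card) : ℝ) := ⟨_, rfl⟩
  obtain ⟨c₂, hc₂⟩ : ∃ c₂ : ℝ, c₂ = ∏ i, (3 ^ (Mo (m + 1) (d i)).card : ℝ) := ⟨_, rfl⟩
  have hc₁0 : 0 < c₁ := by
    rw [hc₁]
    refine Finset.prod_pos fun i _ => ?_
    have : (0 : ℝ) < (Mo (m + 1) (d i)).card := by exact_mod_cast Mo_pos (m + 1) (d i)
    positivity
  have hc₂0 : 0 < c₂ := by
    rw [hc₂]
    positivity
  obtain ⟨D, hD⟩ : ∃ D : ℕ, D = ∑ i, d i := ⟨_, rfl⟩
  obtain ⟨N1, hN1⟩ : ∃ N1 : ℝ, N1 = ((m + 1 : ℕ) : ℝ) + 1 := ⟨_, rfl⟩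
  have hN1' : N1 = ((m + 2 : ℕ) : ℝ) := by rw [hN1]; push_cast; ring
  rw [← hD, ← hN1] at hκ
  rw [← hN1]
  -- the exponent of the threshold
  obtain ⟨κ, hκd⟩ : ∃ κ : ℝ, κ = ((D + e : ℕ) : ℝ) - N1 - ε := ⟨_, rfl⟩
  obtain ⟨c₄, hc₄⟩ : ∃ c₄ : ℝ, c₄ = min 1 ((2 : ℝ) ^ κ) := ⟨_, rfl⟩
  have hc₄0 : 0 < c₄ := by rw [hc₄]; exact lt_min one_pos (by positivity)
  have hc₄1 : c₄ ≤ 1 := by rw [hc₄]; exact min_le_left _ _
  refine ⟨c₄ / (2 * (c₁ * c₃ * 2 ^ D)), 2 + c₅ / c₄ + 2 * c₁ * c₂ * c₃ * 2 ^ (m + 2 + D) / c₄,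
    by positivity, by positivity, fun H hH T hT hcond => ?_⟩
  have hHr : (0 : ℝ) < H := by exact_mod_cast hH
  have hTr : (0 : ℝ) < T := by exact_mod_cast hT
  have hT1 : (1 : ℝ) ≤ T := by exact_mod_cast hT
  obtain ⟨Z, hZ⟩ : ∃ Z : ℝ, Z = (T : ℝ) ^ (2 * N1 + ε) := ⟨_, rfl⟩
  have hN10 : 0 ≤ N1 := by rw [hN1']; positivity
  have hZ0 : 0 < Z := by rw [hZ]; positivity
  have hZT : (T : ℝ) ≤ Z := by
    rw [hZ]
    calc (T : ℝ) = (T : ℝ) ^ (1 : ℝ) := (Real.rpow_one _).symm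
      _ ≤ _ := Real.rpow_le_rpow_of_exponent_le hT1 (by
        have : (1 : ℝ) ≤ N1 := by rw [hN1']; push_cast; linarith [Nat.cast_nonneg (α := ℝ) m]
        linarith)
  rw [← hZ] at hcond
  have hcA : 2 * Z ≤ H := by
    have : 0 ≤ (c₅ / c₄ + 2 * c₁ * c₂ * c₃ * 2 ^ (m + 2 + D) / c₄) * Z := by positivity
    nlinarith
  have hcB : c₅ / c₄ * Z ≤ H := by
    have : 0 ≤ (2 + 2 * c₁ * c₂ * c₃ * 2 ^ (m + 2 + D) / c₄) * Z := by positivity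
    nlinarith
  have hcC : 2 * c₁ * c₂ * c₃ * 2 ^ (m + 2 + D) / c₄ * Z ≤ H := by
    have : 0 ≤ (2 + c₅ / c₄) * Z := by positivity
    nlinarith
  have hTH : 2 * T ≤ H := by
    have : (2 : ℝ) * T ≤ H := by linarith
    exact_mod_cast this
  obtain ⟨S1, hS1⟩ : ∃ S1 : ℝ, S1 = ∏ i, ((FF (m + 1) (d i) H).card : ℝ) := ⟨_, rfl⟩
  obtain ⟨S2, hS2⟩ : ∃ S2 : ℝ, S2 = ((FF (m + 1) e H).card : ℝ) := ⟨_, rfl⟩
  have hS10 : 0 < S1 := by
    rw [hS1]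
    refine Finset.prod_pos fun i _ => ?_
    rw [card_FF]
    positivity
  have hS20 : 0 < S2 := by
    rw [hS2, card_FF]
    positivity
  obtain ⟨Q, hQ⟩ : ∃ Q : ℝ, Q = (H : ℝ) ^ s := ⟨_, rfl⟩
  have hQ0 : 0 < Q := by rw [hQ]; positivity
  have hQH : (H : ℝ) ≤ Q := by
    rw [hQ]
    exact le_self_pow₀ (by exact_mod_cast hH) (by omega)
  rw [← hS1, ← hS2, ← hQ]
  -- the threshold
  obtain ⟨Y, hY⟩ : ∃ Y : ℝ, Y = c₄ * (H * (T : ℝ) ^ κ) := ⟨_, rfl⟩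
  have hY0 : 0 < Y := by rw [hY]; positivity
  have hY1 : c₅ ≤ Y := by
    have h1 : 1 ≤ Z * (T : ℝ) ^ κ := by
      rw [hZ, ← Real.rpow_add hTr]
      refine Real.one_le_rpow hT1 ?_
      rw [hκd]
      have : (0 : ℝ) ≤ ((D + e : ℕ) : ℝ) := Nat.cast_nonneg _
      linarith
    have h2 : (0 : ℝ) < (T : ℝ) ^ κ := by positivity
    calc c₅ = c₅ * 1 := (mul_one _).symm
      _ ≤ c₅ * (Z * (T : ℝ) ^ κ) := mul_le_mul_of_nonneg_left h1 (by linarith)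
      _ = c₄ * ((c₅ / c₄ * Z) * (T : ℝ) ^ κ) := by field_simp
      _ ≤ c₄ * (H * (T : ℝ) ^ κ) :=
          mul_le_mul_of_nonneg_left (mul_le_mul_of_nonneg_right hcB h2.le) hc₄0.le
      _ = Y := hY.symm
  have hY2 : Y ≤ H * (T : ℝ) ^ e := by
    have h1 : (T : ℝ) ^ κ ≤ (T : ℝ) ^ e := by
      rw [← Real.rpow_natCast]
      refine Real.rpow_le_rpow_of_exponent_le hT1 ?_
      rw [hκd]
      push_cast
      linarith
    rw [hY]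
    calc c₄ * (H * (T : ℝ) ^ κ) ≤ 1 * (H * (T : ℝ) ^ κ) :=
          mul_le_mul_of_nonneg_right hc₄1 (by positivity)
      _ = H * (T : ℝ) ^ κ := one_mul _
      _ ≤ _ := mul_le_mul_of_nonneg_left h1 hHr.le
  have hY3 : ∀ b : ℕ, T ≤ b → b ≤ 2 * T →
      Y ≤ H * (b : ℝ) ^ (((∑ i, d i + e : ℕ) : ℝ) - (((m + 1 : ℕ) : ℝ) + 1) - ε) := by
    intro b hb1 hb2
    rw [← hD, ← hN1, ← hκd, hY]
    have hb1r : (T : ℝ) ≤ b := by exact_mod_cast hb1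
    have hb2r : (b : ℝ) ≤ 2 * T := by exact_mod_cast hb2
    have h1 : c₄ * (T : ℝ) ^ κ ≤ (b : ℝ) ^ κ := by
      rcases le_total 0 κ with h | h
      · calc c₄ * (T : ℝ) ^ κ ≤ 1 * (T : ℝ) ^ κ := mul_le_mul_of_nonneg_right hc₄1 (by positivity)
          _ = (T : ℝ) ^ κ := one_mul _
          _ ≤ (b : ℝ) ^ κ := Real.rpow_le_rpow hTr.le hb1r h
      · calc c₄ * (T : ℝ) ^ κ ≤ (2 : ℝ) ^ κ * (T : ℝ) ^ κ :=
              mul_le_mul_of_nonneg_right (hc₄ ▸ min_le_right _ _) (by positivity)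
          _ = (2 * T : ℝ) ^ κ := (Real.mul_rpow (by norm_num) hTr.le).symm
          _ ≤ (b : ℝ) ^ κ := Real.rpow_le_rpow_of_nonpos (by linarith) hb2r h
    calc c₄ * (H * (T : ℝ) ^ κ) = H * (c₄ * (T : ℝ) ^ κ) := by ring
      _ ≤ _ := mul_le_mul_of_nonneg_left h1 hHr.le
  -- the two bounds
  obtain ⟨a, ha⟩ : ∃ a : ℝ, a = S1 / (c₁ * (Q * (2 * T : ℝ) ^ D)) * (S2 * Y / (c₃ * (H * (T : ℝ) ^ e))) :=
    ⟨_, rfl⟩
  obtain ⟨β, hβ⟩ : ∃ β : ℝ, β = c₂ * S1 / Q ^ 2 * S2 := ⟨_, rfl⟩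
  have ha0 : 0 < a := by rw [ha]; positivity
  have hβ0 : 0 < β := by rw [hβ]; positivity
  have hlow : ∀ x ∈ Fam m T, a ≤ ((BB (m + 1) d e H Y x).card : ℝ) := by
    intro x hx
    obtain ⟨h1, -, -⟩ := mem_Fam hx
    obtain ⟨i0, h3, h4, h5, -⟩ := prim_of_fam hx
    have h2 := low_AA (n := m + 1) d H hH x (2 * T) (by omega) (fun i => by
      rw [abs_of_nonneg (by have := (h1 i).1; omega)]
      push_cast
      exact (h1 i).2)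
    rw [← hS1, ← hc₁, ← hQ, ← hD] at h2
    push_cast at h2
    have h6 := hGG H T hT hTH x i0 _ h3 h4 h5 Y hY1 hY2
    rw [← hS2] at h6
    unfold BB
    rw [Finset.card_product, Nat.cast_mul, ha]
    exact mul_le_mul h2 h6 (by positivity) (Nat.cast_nonneg _)
  have hup : ∀ x ∈ Fam m T, ∀ y ∈ (Fam m T).erase x,
      ((BB (m + 1) d e H Y x ∩ BB (m + 1) d e H Y y).card : ℝ) ≤ β := by
    intro x hx y hy
    obtain ⟨hne, hy⟩ := Finset.mem_erase.1 hy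
    obtain ⟨h1, -, -⟩ := mem_Fam hx
    obtain ⟨h2, -, -⟩ := mem_Fam hy
    obtain ⟨j, hj⟩ := Fam_indep hx hy hne.symm
    have h3 := up_AA (n := m + 1) d hd H hH x y 0 j (by have := (h1 0).1; omega)
      (by have := (h2 0).1; omega) hj
    rw [← hS1, ← hc₂, ← hQ] at h3
    have h4 : BB (m + 1) d e H Y x ∩ BB (m + 1) d e H Y y ⊆
        (AA (m + 1) d H x ∩ AA (m + 1) d H y) ×ˢ FF (m + 1) e H := by
      intro P hP
      obtain ⟨h5, h6⟩ := Finset.mem_inter.1 hP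
      unfold BB at h5 h6
      obtain ⟨h7, h8⟩ := Finset.mem_product.1 h5
      obtain ⟨h9, -⟩ := Finset.mem_product.1 h6
      unfold GG at h8
      exact Finset.mem_product.2 ⟨Finset.mem_inter.2 ⟨h7, h9⟩, (Finset.mem_filter.1 h8).1⟩
    refine (Nat.cast_le.2 (Finset.card_le_card h4)).trans ?_
    rw [Finset.card_product, Nat.cast_mul, ← hS2, hβ]
    exact mul_le_mul_of_nonneg_right h3 hS20.le
  -- Bonferroni
  obtain ⟨N, hN⟩ : ∃ N : ℝ, N = ((Fam m T).card : ℝ) := ⟨_, rfl⟩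
  obtain ⟨hNa, hNb⟩ := card_Fam m T
  have hN1r : (T : ℝ) ^ (m + 2) ≤ N := by rw [hN]; exact_mod_cast hNa
  have hN2r : N ≤ (2 * T : ℝ) ^ (m + 2) := by rw [hN]; exact_mod_cast hNb
  have hN0 : 0 < N := lt_of_lt_of_le (by positivity) hN1r
  have hb := bonf (Fam m T) (fun x => BB (m + 1) d e H Y x)
  have hbr : ∑ x ∈ Fam m T, ((BB (m + 1) d e H Y x).card : ℝ) ≤
      (((Fam m T).biUnion fun x => BB (m + 1) d e H Y x).card : ℝ) +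
      ∑ x ∈ Fam m T, ∑ y ∈ (Fam m T).erase x,
        ((BB (m + 1) d e H Y x ∩ BB (m + 1) d e H Y y).card : ℝ) := by exact_mod_cast hb
  have h1 : N * a ≤ ∑ x ∈ Fam m T, ((BB (m + 1) d e H Y x).card : ℝ) := by
    have := Finset.card_nsmul_le_sum _ _ _ hlow
    rwa [nsmul_eq_mul, ← hN] at this
  have h2 : ∑ x ∈ Fam m T, ∑ y ∈ (Fam m T).erase x,
        ((BB (m + 1) d e H Y x ∩ BB (m + 1) d e H Y y).card : ℝ) ≤ N * (N * β) := by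
    have h3 : ∀ x ∈ Fam m T, ∑ y ∈ (Fam m T).erase x,
        ((BB (m + 1) d e H Y x ∩ BB (m + 1) d e H Y y).card : ℝ) ≤ N * β := by
      intro x hx
      refine (Finset.sum_le_card_nsmul _ _ _ (hup x hx)).trans ?_
      rw [nsmul_eq_mul]
      refine mul_le_mul_of_nonneg_right ?_ hβ0.le
      rw [hN]
      exact_mod_cast Finset.card_le_card (Finset.erase_subset _ _)
    have := Finset.sum_le_card_nsmul _ _ _ h3
    rwa [nsmul_eq_mul, ← hN] at this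
  have h3 : (((Fam m T).biUnion fun x => BB (m + 1) d e H Y x).card : ℝ) ≤
      ((Vio (m + 1) d e ε H T (2 * T)).ncard : ℝ) := by
    have := Set.ncard_le_ncard (union_sub m d e ε H T Y hY3) (fin_vio d e ε H T (2 * T))
    rw [Set.ncard_coe_finset] at this
    exact_mod_cast this
  -- the exponents
  have hexp : (T : ℝ) ^ κ * (T : ℝ) ^ (m + 2) = (T : ℝ) ^ D * (T : ℝ) ^ e * (T : ℝ) ^ (-ε) := by
    rw [← Real.rpow_natCast, ← Real.rpow_natCast, ← Real.rpow_natCast, ← Real.rpow_add hTr,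
      ← Real.rpow_add hTr, ← Real.rpow_add hTr, hκd, hN1']
    congr 1
    push_cast
    ring
  have hZ2 : (T : ℝ) ^ (m + 2) * (T : ℝ) ^ D * (T : ℝ) ^ e = Z * (T : ℝ) ^ κ := by
    rw [hZ, ← Real.rpow_natCast, ← Real.rpow_natCast, ← Real.rpow_natCast, ← Real.rpow_add hTr,
      ← Real.rpow_add hTr, ← Real.rpow_add hTr, hκd, hN1']
    congr 1
    push_cast
    ring
  have h4 : N * β ≤ a / 2 := by
    have h5 : (2 * (T : ℝ)) ^ (m + 2) * β ≤ a / 2 := by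
      have e1 : a / 2 = S1 * S2 * Y / (2 * c₁ * c₃ * 2 ^ D * Q * H * ((T : ℝ) ^ D * (T : ℝ) ^ e)) := by
        rw [ha, mul_pow]
        field_simp
      have e2 : (2 * (T : ℝ)) ^ (m + 2) * β = S1 * S2 * (c₂ * 2 ^ (m + 2) * (T : ℝ) ^ (m + 2)) / Q ^ 2 := by
        rw [hβ, mul_pow]
        field_simp
      rw [e1, e2, div_le_div_iff₀ (by positivity) (by positivity)]
      have e3 : 2 * c₁ * c₂ * c₃ * 2 ^ (m + 2 + D) * Z ≤ c₄ * Q := by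
        have h6 : 2 * c₁ * c₂ * c₃ * 2 ^ (m + 2 + D) / c₄ * Z = 2 * c₁ * c₂ * c₃ * 2 ^ (m + 2 + D) * Z / c₄ := by
          ring
        rw [h6, div_le_iff₀ hc₄0] at hcC
        calc _ ≤ H * c₄ := hcC
          _ ≤ Q * c₄ := mul_le_mul_of_nonneg_right hQH hc₄0.le
          _ = c₄ * Q := mul_comm _ _
      calc S1 * S2 * (c₂ * 2 ^ (m + 2) * (T : ℝ) ^ (m + 2)) *
            (2 * c₁ * c₃ * 2 ^ D * Q * H * ((T : ℝ) ^ D * (T : ℝ) ^ e))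
          = S1 * S2 * Q * H * ((2 * c₁ * c₂ * c₃ * 2 ^ (m + 2 + D)) *
              ((T : ℝ) ^ (m + 2) * (T : ℝ) ^ D * (T : ℝ) ^ e)) := by
            rw [pow_add (2 : ℝ) (m + 2) D]
            ring
        _ = S1 * S2 * Q * H * ((2 * c₁ * c₂ * c₃ * 2 ^ (m + 2 + D) * Z) * (T : ℝ) ^ κ) := by
            rw [hZ2]
            ring
        _ ≤ S1 * S2 * Q * H * ((c₄ * Q) * (T : ℝ) ^ κ) := by
            refine mul_le_mul_of_nonneg_left (mul_le_mul_of_nonneg_right e3 (by positivity))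
              (by positivity)
        _ = S1 * S2 * Y * Q ^ 2 := by
            rw [hY]
            ring
    exact (mul_le_mul_of_nonneg_right hN2r hβ0.le).trans h5
  have h6 : N * (a / 2) ≤ ((Vio (m + 1) d e ε H T (2 * T)).ncard : ℝ) := by
    have : N * (N * β) ≤ N * (a / 2) := mul_le_mul_of_nonneg_left h4 hN0.le
    have e : N * a = N * (a / 2) + N * (a / 2) := by ring
    linarith
  refine le_trans ?_ ((mul_le_mul_of_nonneg_right hN1r (by positivity)).trans h6)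
  refine le_of_eq ?_
  rw [ha, hY, mul_pow]
  have e1 : (T : ℝ) ^ (m + 2) * (S1 / (c₁ * (Q * (2 ^ D * (T : ℝ) ^ D))) *
      (S2 * (c₄ * (H * (T : ℝ) ^ κ)) / (c₃ * (H * (T : ℝ) ^ e))) / 2) =
      ((T : ℝ) ^ κ * (T : ℝ) ^ (m + 2)) * (S1 * S2 * c₄ / (2 * c₁ * c₃ * 2 ^ D * Q *
        ((T : ℝ) ^ D * (T : ℝ) ^ e))) := by
    field_simp
  rw [e1, hexp]
  field_simp

end Pool.Agent.U580.VP
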